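import Pool.Agent.X197.BK.S2a
import Pool.Agent.X31.BK.Red
import Pool.Agent.X31.BK.Fr

/-!
# MP_f98e31_an: Burns-Krantz rigidity at the smooth boundary points of the symmetrized bidisc

For every boundary point `p` of the symmetrized bidisc outside the Shilov boundary, every
holomorphic self-map `F` with `F w = w + o(|w - p|^3)` as `w → p` is the identity.
-/

set_option autoImplicit false

open Filter Topology Set Asymptotics

namespace Pool.Agent.Results.MP_f98e31_an.RigidityAtSmoothPoints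

/-- the symmetrized bidisc -/
def G2 : Set (ℂ × ℂ) := {w | ∃ a b : ℂ, ‖a‖ < 1 ∧ ‖b‖ < 1 ∧ w = (a + b, a * b)}

/-- its Shilov boundary -/
def S : Set (ℂ × ℂ) := {w | ∃ a b : ℂ, ‖a‖ = 1 ∧ ‖b‖ = 1 ∧ w = (a + b, a * b)}

theorem result : ∀ p ∈ frontier G2 \ S, ∀ F : ℂ × ℂ → ℂ × ℂ,
    DifferentiableOn ℂ F G2 → MapsTo F G2 G2 →
    (fun w => F w - w) =o[𝓝[G2] p] (fun w => ‖w - p‖ ^ 3) →
    ∀ w ∈ G2, F w = w := by
  rintro p ⟨hp, hS⟩ F hF hm ho
  obtain ⟨τ, lam, hτ, hlam, rfl⟩ := Pool.Agent.X31.BK.frontier_param (p := p) hp hS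
  exact Pool.Agent.X31.BK.full
    (fun Y h1 h2 h3 h4 => Pool.Agent.X197.BK.stage2 Y h1 h2 h3 h4) F hF hm τ lam hτ hlam ho

end Pool.Agent.Results.MP_f98e31_an.RigidityAtSmoothPoints
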